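import Mathlib

/-!
# An unconditional bound for `gcd(!N, N!)` (Kurepa's left factorial problem)

`!N = 0! + 1! + ... + (N-1)!`.  Kurepa's assertion is equivalent to `gcd(!N, N!) = 2` for every
`N > 2`.  We prove `4 * gcd(!N, N!)^2 ≤ (N+3)^3 * 2^N * N!` for every `N`, hence
`gcd(!N, N!) ≤ (N!)^(1/2 + ε)` for every `ε > 0` and all large `N`
(the trivial bound is `gcd(!N, N!) ≤ !N`, which is `(N!)^(1 - o(1))`).

Proof.  Let `P, Q` be the two integer solutions of `X_{n+1} = -2n X_n - n² X_{n-1}` with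
`(P_0, P_1) = (0, 1)` and `(Q_0, Q_1) = (1, 0)`.  Then
* `gcd(n!², N!)` divides `Q_n * !N - P_n` (compare with the sums `∑_{j<N} (n+j)!² / j!`, which
  satisfy the same recurrence up to a telescoping term divisible by `N!`),
* `P_{n+1} Q_n - P_n Q_{n+1} = n!²`, so `P_n` and `P_{n+1}` are not both zero,
* `P_n² ≤ 2 n!²` (an energy inequality).
Taking `n = ⌈N/2⌉` and using `N! ∣ C(N, n) n!²` gives the bound.
-/

namespace Pool.Agent.Results.MP_21ef5d_nt.GcdBound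

open Finset

/-- The integer sequence `P`: `P 0 = 0`, `P 1 = 1`,
`P (n+2) = -2 (n+1) P (n+1) - (n+1)^2 P n`. -/
def P : ℕ → ℤ
  | 0 => 0
  | 1 => 1
  | (n + 2) => -2 * (n + 1) * P (n + 1) - (n + 1) ^ 2 * P n

/-- The integer sequence `Q`: `Q 0 = 1`, `Q 1 = 0`, same recurrence. -/
def Q : ℕ → ℤ
  | 0 => 1
  | 1 => 0
  | (n + 2) => -2 * (n + 1) * Q (n + 1) - (n + 1) ^ 2 * Q n

/-- The Casoratian of `P` and `Q`. -/
theorem casoratian (n : ℕ) :
    P (n + 1) * Q n - P n * Q (n + 1) = ((n.factorial : ℕ) : ℤ) ^ 2 := by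
  induction n with
  | zero => simp [P, Q]
  | succ n ih =>
    have hP : P (n + 1 + 1) = -2 * (n + 1) * P (n + 1) - (n + 1) ^ 2 * P n := rfl
    have hQ : Q (n + 1 + 1) = -2 * (n + 1) * Q (n + 1) - (n + 1) ^ 2 * Q n := rfl
    rw [hP, hQ, Nat.factorial_succ]
    push_cast
    linear_combination ((n : ℤ) + 1) ^ 2 * ih

/-- The energy inequality. -/
theorem energy (n : ℕ) :
    P (n + 1) ^ 2 + (n + 1) * (P (n + 1) + (n + 1) * P n) ^ 2
      ≤ 2 * (((n + 1).factorial : ℕ) : ℤ) ^ 2 := by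
  induction n with
  | zero => simp [P]
  | succ n ih =>
    have hP : P (n + 1 + 1) = -2 * (n + 1) * P (n + 1) - (n + 1) ^ 2 * P n := rfl
    rw [hP, Nat.factorial_succ (n + 1)]
    push_cast
    set a := P (n + 1)
    set b := P n
    have key : (-2 * ((n : ℤ) + 1) * a - (n + 1) ^ 2 * b) ^ 2
        + ((n : ℤ) + 1 + 1) * (-2 * (n + 1) * a - (n + 1) ^ 2 * b + (n + 1 + 1) * a) ^ 2
        = ((n : ℤ) + 1 + 1) ^ 2 * (a ^ 2 + (n + 1) * (a + (n + 1) * b) ^ 2)
          - ((n : ℤ) + 1) * (a + (a + (n + 1) * b)) ^ 2 := by ring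
    have h0 : 0 ≤ ((n : ℤ) + 1) * (a + (a + (n + 1) * b)) ^ 2 := by positivity
    have h1 : ((n : ℤ) + 1 + 1) ^ 2 * (a ^ 2 + (n + 1) * (a + (n + 1) * b) ^ 2)
        ≤ ((n : ℤ) + 1 + 1) ^ 2 * (2 * (((n + 1).factorial : ℕ) : ℤ) ^ 2) :=
      mul_le_mul_of_nonneg_left ih (by positivity)
    rw [key]
    linarith

/-- `P_n² ≤ 2 n!²`. -/
theorem P_sq_le (n : ℕ) : P n ^ 2 ≤ 2 * ((n.factorial : ℕ) : ℤ) ^ 2 := by
  cases n with
  | zero => simp [P]
  | succ n =>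
    have h := energy n
    have h0 : 0 ≤ ((n : ℤ) + 1) * (P (n + 1) + (n + 1) * P n) ^ 2 := by positivity
    linarith

/-- `P_n` and `P_{n+1}` are not both zero. -/
theorem P_ne_zero (n : ℕ) : P n ≠ 0 ∨ P (n + 1) ≠ 0 := by
  by_contra h
  push Not at h
  have hc := casoratian n
  rw [h.1, h.2] at hc
  have h0 : (0 : ℤ) < ((n.factorial : ℕ) : ℤ) ^ 2 := by
    have : (0 : ℤ) < ((n.factorial : ℕ) : ℤ) := by exact_mod_cast n.factorial_pos
    positivity
  rw [← hc] at h0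
  simp at h0

/-- The term `(n+j)!² / j! = j! * ((j+1)(j+2)...(j+n))²`. -/
def T (n j : ℕ) : ℤ := ((j.factorial : ℕ) : ℤ) * (((j + 1).ascFactorial n : ℕ) : ℤ) ^ 2

/-- The sums `S_n(J) = ∑_{j<J} (n+j)!² / j!`. -/
def S (n J : ℕ) : ℤ := ∑ j ∈ range J, T n j

/-- The telescoping term. -/
def G (m j : ℕ) : ℤ :=
  T m j * j * (((m : ℤ) + 1 + j) ^ 2 + ((m : ℤ) + 1 + j) + (m + 1))

theorem asc_shift (m j : ℕ) :
    (j + 1) * (j + 2).ascFactorial m = (j + 1).ascFactorial m * (j + 1 + m) := by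
  have h1 : (j + 1).ascFactorial (m + 1) = (j + 1 + m) * (j + 1).ascFactorial m :=
    Nat.ascFactorial_succ
  have h2 : (j + 1) * (j + 1 + 1).ascFactorial m = (j + 1).ascFactorial (m + 1) := by
    have := Nat.succ_ascFactorial (j + 1) m
    rw [Nat.succ_eq_add_one] at this
    rw [this, h1, add_comm (j + 1) m]
    
  rw [show j + 2 = j + 1 + 1 from rfl, h2, h1]
  ring

theorem tele (m j : ℕ) :
    T (m + 2) j + 2 * (m + 1) * T (m + 1) j + (m + 1) ^ 2 * T m j = G m (j + 1) - G m j := by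
  have e1 : (j + 1).ascFactorial (m + 1) = (j + 1 + m) * (j + 1).ascFactorial m :=
    Nat.ascFactorial_succ
  have e2 : (j + 1).ascFactorial (m + 2) = (j + 1 + (m + 1)) * (j + 1).ascFactorial (m + 1) :=
    Nat.ascFactorial_succ
  have e3 : ((j : ℤ) + 1) * (((j + 2).ascFactorial m : ℕ) : ℤ)
      = (((j + 1).ascFactorial m : ℕ) : ℤ) * (j + 1 + m) := by
    exact_mod_cast asc_shift m j
  unfold G T
  rw [e2, e1, Nat.factorial_succ]
  push_cast
  set a := (((j + 1).ascFactorial m : ℕ) : ℤ)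
  set f := ((j.factorial : ℕ) : ℤ)
  rw [show j + 1 + 1 = j + 2 from rfl]
  set b := (((j + 2).ascFactorial m : ℕ) : ℤ)
  have e4 : ((j : ℤ) + 1) ^ 2 * b ^ 2 = a ^ 2 * (j + 1 + m) ^ 2 := by
    rw [← mul_pow, e3, mul_pow]
  linear_combination (-(f * (((m : ℤ) + 1 + (j + 1)) ^ 2 + ((m : ℤ) + 1 + (j + 1)) + (m + 1)))) * e4

theorem S_rec (m J : ℕ) :
    S (m + 2) J + 2 * (m + 1) * S (m + 1) J + (m + 1) ^ 2 * S m J = G m J := by
  unfold S
  rw [mul_sum, mul_sum, ← sum_add_distrib, ← sum_add_distrib]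
  rw [sum_congr rfl (fun j _ => tele m j), sum_range_sub]
  simp [G]

theorem factorial_dvd_G (m J : ℕ) : ((J.factorial : ℕ) : ℤ) ∣ G m J := by
  unfold G T
  exact Dvd.dvd.mul_right (Dvd.dvd.mul_right (Dvd.intro _ rfl) _) _

theorem S_zero (J : ℕ) : S 0 J = ∑ j ∈ range J, ((j.factorial : ℕ) : ℤ) := by
  unfold S T
  simp

theorem S_one (J : ℕ) : S 1 J = (((J + 1).factorial : ℕ) : ℤ) - 1 := by
  induction J with
  | zero => simp [S]
  | succ J ih =>
    unfold S at ih ⊢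
    rw [sum_range_succ, ih]
    unfold T
    have e1 : (J + 1).ascFactorial 1 = J + 1 := by simp [Nat.ascFactorial]
    rw [e1, Nat.factorial_succ (J + 1), Nat.factorial_succ J]
    push_cast
    ring

theorem factorial_sq_dvd_S (n J : ℕ) : ((n.factorial : ℕ) : ℤ) ^ 2 ∣ S n J := by
  unfold S T
  refine dvd_sum (fun j _ => ?_)
  refine Dvd.dvd.mul_left (pow_dvd_pow_of_dvd ?_ 2) _
  exact_mod_cast Nat.factorial_dvd_ascFactorial (j + 1) n

/-- `J!` divides `(Q_n * !J - P_n) - S_n(J)`. -/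
theorem dvd_sub_S (J : ℕ) : ∀ n : ℕ,
    ((J.factorial : ℕ) : ℤ) ∣
      (Q n * (∑ j ∈ range J, ((j.factorial : ℕ) : ℤ)) - P n) - S n J
  | 0 => by simp [Q, P, S_zero]
  | 1 => by
      rw [S_one, Nat.factorial_succ]
      simp only [Q, P]
      push_cast
      exact ⟨-(J + 1), by ring⟩
  | (n + 2) => by
      obtain ⟨a, ha⟩ := dvd_sub_S J n
      obtain ⟨b, hb⟩ := dvd_sub_S J (n + 1)
      obtain ⟨c, hc⟩ := factorial_dvd_G n J
      have hS := S_rec n J
      have hP : P (n + 2) = -2 * (n + 1) * P (n + 1) - (n + 1) ^ 2 * P n := rfl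
      have hQ : Q (n + 2) = -2 * (n + 1) * Q (n + 1) - (n + 1) ^ 2 * Q n := rfl
      refine ⟨-2 * (n + 1) * b - (n + 1) ^ 2 * a - c, ?_⟩
      rw [hP, hQ]
      linear_combination (-2 * ((n : ℤ) + 1)) * hb - ((n : ℤ) + 1) ^ 2 * ha - hc - hS

/-- A common divisor of `n!²`, `N!` and `!N` divides `P_n`. -/
theorem dvd_P {N n d : ℕ} (h1 : d ∣ n.factorial ^ 2) (h2 : d ∣ N.factorial)
    (h3 : d ∣ ∑ k ∈ range N, k.factorial) : (d : ℤ) ∣ P n := by
  have a1 : (d : ℤ) ∣ S n N :=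
    dvd_trans (by exact_mod_cast h1) (factorial_sq_dvd_S n N)
  have a2 : (d : ℤ) ∣ (Q n * (∑ j ∈ range N, ((j.factorial : ℕ) : ℤ)) - P n) - S n N :=
    dvd_trans (by exact_mod_cast h2) (dvd_sub_S N n)
  have a3 : (d : ℤ) ∣ ∑ j ∈ range N, ((j.factorial : ℕ) : ℤ) := by
    exact_mod_cast h3
  have a4 : (d : ℤ) ∣ Q n * (∑ j ∈ range N, ((j.factorial : ℕ) : ℤ)) - P n := by
    have := dvd_add a2 a1
    simpa using this
  have a5 := dvd_sub (Dvd.dvd.mul_left a3 (Q n)) a4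
  simpa using a5

/-- The main step, for any `m` with `P m ≠ 0` and any `C > 0` with `N! ∣ m!² * C`. -/
theorem gcd_sq_le {N m C : ℕ} (hP : P m ≠ 0) (hC0 : 0 < C)
    (hC : N.factorial ∣ m.factorial ^ 2 * C) :
    (Nat.gcd (∑ k ∈ range N, k.factorial) N.factorial) ^ 2
      ≤ 2 * m.factorial ^ 2 * C ^ 2 := by
  set g := Nat.gcd (∑ k ∈ range N, k.factorial) N.factorial with hg
  have hg1 : g ∣ ∑ k ∈ range N, k.factorial := Nat.gcd_dvd_left _ _
  have hg2 : g ∣ N.factorial := Nat.gcd_dvd_right _ _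
  set d := Nat.gcd g (m.factorial ^ 2) with hd
  have hdP : (d : ℤ) ∣ P m :=
    dvd_P (Nat.gcd_dvd_right _ _) ((Nat.gcd_dvd_left _ _).trans hg2)
      ((Nat.gcd_dvd_left _ _).trans hg1)
  have h1 : g ∣ d * C := by
    rw [hd, ← Nat.gcd_mul_right]
    exact Nat.dvd_gcd (Dvd.intro _ rfl) (hg2.trans hC)
  have h2 : d ≤ (P m).natAbs := by
    refine Nat.le_of_dvd (Int.natAbs_pos.mpr hP) ?_
    exact Int.natCast_dvd.mp hdP
  have hd0 : 0 < d := Nat.gcd_pos_of_pos_right _ (by positivity)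
  have h3 : g ≤ d * C := Nat.le_of_dvd (Nat.mul_pos hd0 hC0) h1
  have h4 : g ≤ (P m).natAbs * C := h3.trans (Nat.mul_le_mul_right C h2)
  have h5 : (P m).natAbs ^ 2 ≤ 2 * m.factorial ^ 2 := by
    have := P_sq_le m
    rw [← Int.natAbs_sq] at this
    exact_mod_cast this
  calc g ^ 2 ≤ ((P m).natAbs * C) ^ 2 := Nat.pow_le_pow_left h4 2
    _ = (P m).natAbs ^ 2 * C ^ 2 := by ring
    _ ≤ 2 * m.factorial ^ 2 * C ^ 2 := Nat.mul_le_mul_right _ h5

/-- The explicit bound. -/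
theorem explicit (N : ℕ) :
    4 * (Nat.gcd (∑ k ∈ range N, k.factorial) N.factorial) ^ 2
      ≤ (N + 3) ^ 3 * 2 ^ N * N.factorial := by
  obtain ⟨n, k, hN, hk1, hk2⟩ : ∃ n k : ℕ, N = n + k ∧ k ≤ n ∧ n ≤ k + 1 :=
    ⟨(N + 1) / 2, N / 2, by omega, by omega, by omega⟩
  have hC0 : 0 < N.choose n := Nat.choose_pos (by omega)
  have hfac : N.choose n * n.factorial * k.factorial = N.factorial := by
    have := Nat.choose_mul_factorial_mul_factorial (show n ≤ N by omega)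
    rwa [show N - n = k by omega] at this
  have hdvd : N.factorial ∣ n.factorial ^ 2 * N.choose n := by
    obtain ⟨c, hc⟩ := Nat.factorial_dvd_factorial hk1
    refine ⟨c, ?_⟩
    rw [← hfac]
    calc n.factorial ^ 2 * N.choose n = N.choose n * n.factorial * n.factorial := by ring
      _ = N.choose n * n.factorial * (k.factorial * c) := by rw [← hc]
      _ = _ := by ring
  have hmain : (Nat.gcd (∑ k ∈ range N, k.factorial) N.factorial) ^ 2
      ≤ 2 * (n + 1).factorial ^ 2 * N.choose n ^ 2 := by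
    rcases P_ne_zero n with h | h
    · refine (gcd_sq_le h hC0 hdvd).trans ?_
      refine Nat.mul_le_mul_right _ (Nat.mul_le_mul_left _ (Nat.pow_le_pow_left ?_ 2))
      exact Nat.factorial_le (Nat.le_succ n)
    · refine gcd_sq_le h hC0 (hdvd.trans ?_)
      refine Nat.mul_dvd_mul_right (pow_dvd_pow_of_dvd ?_ 2) _
      exact Nat.factorial_dvd_factorial (Nat.le_succ n)
  have hn : n.factorial ≤ (n + 1) * k.factorial := by
    rcases Nat.lt_or_ge k n with h | h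
    · have : n = k + 1 := by omega
      subst this
      rw [Nat.factorial_succ]
      exact Nat.mul_le_mul_right _ (by omega)
    · have : n = k := by omega
      subst this
      exact Nat.le_mul_of_pos_left _ (Nat.succ_pos n)
  have hchoose : N.choose n ≤ 2 ^ N := Nat.choose_le_two_pow N n
  have hstep : n.factorial ^ 2 * N.choose n ^ 2 ≤ (n + 1) * 2 ^ N * N.factorial := by
    calc n.factorial ^ 2 * N.choose n ^ 2
        = (N.choose n * n.factorial) * N.choose n * n.factorial := by ring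
      _ ≤ (N.choose n * n.factorial) * 2 ^ N * ((n + 1) * k.factorial) := by
          gcongr
      _ = (n + 1) * 2 ^ N * (N.choose n * n.factorial * k.factorial) := by ring
      _ = (n + 1) * 2 ^ N * N.factorial := by rw [hfac]
  have hcube : 8 * (n + 1) ^ 3 ≤ (N + 3) ^ 3 := by
    calc 8 * (n + 1) ^ 3 = (2 * (n + 1)) ^ 3 := by ring
      _ ≤ (N + 3) ^ 3 := Nat.pow_le_pow_left (by omega) 3
  calc 4 * (Nat.gcd (∑ k ∈ range N, k.factorial) N.factorial) ^ 2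
      ≤ 4 * (2 * (n + 1).factorial ^ 2 * N.choose n ^ 2) := Nat.mul_le_mul_left _ hmain
    _ = 8 * (n + 1) ^ 2 * (n.factorial ^ 2 * N.choose n ^ 2) := by
        rw [Nat.factorial_succ]; ring
    _ ≤ 8 * (n + 1) ^ 2 * ((n + 1) * 2 ^ N * N.factorial) := Nat.mul_le_mul_left _ hstep
    _ = 8 * (n + 1) ^ 3 * (2 ^ N * N.factorial) := by ring
    _ ≤ (N + 3) ^ 3 * (2 ^ N * N.factorial) := Nat.mul_le_mul_right _ hcube
    _ = (N + 3) ^ 3 * 2 ^ N * N.factorial := by ring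

/-- The asymptotic form. -/
theorem asymptotic (ε : ℝ) (hε : 0 < ε) :
    ∀ᶠ N : ℕ in Filter.atTop,
      ((Nat.gcd (∑ k ∈ range N, k.factorial) N.factorial : ℕ) : ℝ)
        ≤ ((N.factorial : ℕ) : ℝ) ^ (1 / 2 + ε) := by
  -- `g² ≤ 256^N N!` for `N ≥ 1` and `(256^(1/(2ε)))^N ≤ N!` eventually
  set K : ℝ := (256 : ℝ) ^ (1 / (2 * ε)) with hK
  have hK0 : 0 < K := by positivity
  have hlim := FloorSemiring.tendsto_pow_div_factorial_atTop K
  have hev : ∀ᶠ N : ℕ in Filter.atTop, K ^ N / ((N.factorial : ℕ) : ℝ) < 1 :=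
    hlim.eventually (gt_mem_nhds one_pos)
  filter_upwards [hev, Filter.eventually_ge_atTop 1] with N hN hN1
  have hf0 : (0 : ℝ) < ((N.factorial : ℕ) : ℝ) := by exact_mod_cast N.factorial_pos
  have hKN : K ^ N ≤ ((N.factorial : ℕ) : ℝ) := by
    rw [div_lt_one hf0] at hN
    exact hN.le
  have h256 : (256 : ℝ) ^ N ≤ ((N.factorial : ℕ) : ℝ) ^ (2 * ε) := by
    have h1 : (K ^ N) ^ (2 * ε) ≤ ((N.factorial : ℕ) : ℝ) ^ (2 * ε) :=
      Real.rpow_le_rpow (by positivity) hKN (by positivity)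
    have h2 : (K ^ N) ^ (2 * ε) = (256 : ℝ) ^ N := by
      rw [hK, ← Real.rpow_natCast, ← Real.rpow_mul (by positivity), ← Real.rpow_mul (by positivity),
        ← Real.rpow_natCast]
      congr 1
      field_simp
    rwa [h2] at h1
  have hexp := explicit N
  have h3 : ∀ m : ℕ, 1 ≤ m → m + 3 ≤ 4 ^ m := by
    intro m hm
    induction m, hm using Nat.le_induction with
    | base => norm_num
    | succ m hm ih =>
      rw [pow_succ]
      omega
  have hpoly : (N + 3) ^ 3 * 2 ^ N ≤ 4 * 256 ^ N := by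
    calc (N + 3) ^ 3 * 2 ^ N ≤ (4 ^ N) ^ 3 * 2 ^ N :=
          Nat.mul_le_mul_right _ (Nat.pow_le_pow_left (h3 N hN1) 3)
      _ = 128 ^ N := by
          rw [← pow_mul, mul_comm N 3, pow_mul, ← mul_pow]
          norm_num
      _ ≤ 256 ^ N := Nat.pow_le_pow_left (by norm_num) N
      _ ≤ 4 * 256 ^ N := Nat.le_mul_of_pos_left _ (by norm_num)
  set g := Nat.gcd (∑ k ∈ range N, k.factorial) N.factorial with hg
  have hnat : g ^ 2 ≤ 256 ^ N * N.factorial := by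
    have h5 : 4 * g ^ 2 ≤ 4 * 256 ^ N * N.factorial :=
      hexp.trans (Nat.mul_le_mul_right _ hpoly)
    rw [mul_assoc] at h5
    exact Nat.le_of_mul_le_mul_left h5 (by norm_num)
  have hreal : (g : ℝ) ^ 2 ≤ (256 : ℝ) ^ N * ((N.factorial : ℕ) : ℝ) := by
    exact_mod_cast hnat
  have hsq : (g : ℝ) ^ 2 ≤ (((N.factorial : ℕ) : ℝ) ^ (1 / 2 + ε)) ^ 2 := by
    calc (g : ℝ) ^ 2 ≤ (256 : ℝ) ^ N * ((N.factorial : ℕ) : ℝ) := hreal
      _ ≤ ((N.factorial : ℕ) : ℝ) ^ (2 * ε) * ((N.factorial : ℕ) : ℝ) :=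
          mul_le_mul_of_nonneg_right h256 hf0.le
      _ = (((N.factorial : ℕ) : ℝ) ^ (1 / 2 + ε)) ^ 2 := by
          rw [← Real.rpow_natCast, ← Real.rpow_mul hf0.le]
          nth_rewrite 2 [← Real.rpow_one ((N.factorial : ℕ) : ℝ)]
          rw [← Real.rpow_add hf0]
          congr 1
          push_cast
          ring
  exact (abs_le_of_sq_le_sq' hsq (by positivity)).2

/-- **Unconditional bound for `gcd(!N, N!)`.**  With `!N = ∑_{k<N} k!`:
(1) `4 * gcd(!N, N!)^2 ≤ (N+3)^3 * 2^N * N!` for every `N`;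
(2) for every real `ε > 0`, `gcd(!N, N!) ≤ (N!)^(1/2 + ε)` for all sufficiently large `N`. -/
theorem result :
    (∀ N : ℕ, 4 * (Nat.gcd (∑ k ∈ Finset.range N, k.factorial) N.factorial) ^ 2
      ≤ (N + 3) ^ 3 * 2 ^ N * N.factorial) ∧
    (∀ ε : ℝ, 0 < ε → ∀ᶠ N : ℕ in Filter.atTop,
      ((Nat.gcd (∑ k ∈ Finset.range N, k.factorial) N.factorial : ℕ) : ℝ)
        ≤ ((N.factorial : ℕ) : ℝ) ^ (1 / 2 + ε)) :=
  ⟨explicit, asymptotic⟩

end Pool.Agent.Results.MP_21ef5d_nt.GcdBound
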